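import Pool.Agent.Helper71.CK.Goals

/-! Packet CK-INVAR: the best cost of a noncrossing partition depends only on the value. -/

set_option autoImplicit false

namespace Pool.Agent.Helper61.CK

open Pool.Agent.CK

/-- the congruence -/
def con : Con (FreeMonoid (Fin 2 × ℤ)) where
  r M M' := ∀ (A C : List (Fin 2 × ℤ)) (c : ℕ),
    P c (A ++ FreeMonoid.toList M ++ C) ↔ P c (A ++ FreeMonoid.toList M' ++ C)
  iseqv := ⟨fun _ _ _ _ => Iff.rfl, fun h A C c => (h A C c).symm,
    fun h h' A C c => (h A C c).trans (h' A C c)⟩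
  mul' := by
    intro M₁ M₁' M₂ M₂' h₁ h₂ A C c
    have e1 : A ++ FreeMonoid.toList (M₁ * M₂) ++ C =
        A ++ FreeMonoid.toList M₁ ++ (FreeMonoid.toList M₂ ++ C) := by
      rw [FreeMonoid.toList_mul]
      simp
    have e2 : A ++ FreeMonoid.toList M₁' ++ (FreeMonoid.toList M₂ ++ C) =
        (A ++ FreeMonoid.toList M₁') ++ FreeMonoid.toList M₂ ++ C := by
      simp
    have e3 : A ++ FreeMonoid.toList (M₁' * M₂') ++ C =
        (A ++ FreeMonoid.toList M₁') ++ FreeMonoid.toList M₂' ++ C := by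
      rw [FreeMonoid.toList_mul]
      simp
    rw [e1, h₁, e2, h₂, e3]

theorem con_iff (L L' : List (Fin 2 × ℤ)) :
    (FreeMonoid.ofList L : con.Quotient) = (FreeMonoid.ofList L' : con.Quotient) ↔
      ∀ (A C : List (Fin 2 × ℤ)) (c : ℕ), P c (A ++ L ++ C) ↔ P c (A ++ L' ++ C) :=
  Con.eq con

theorem zero_eqv (h : S_NCOPS) (g : Fin 2) (A C : List (Fin 2 × ℤ)) (c : ℕ) :
    P c (A ++ [(g, 0)] ++ C) ↔ P c (A ++ [] ++ C) := by
  constructor
  · rintro ⟨B, hB, hc⟩
    rw [List.append_assoc, List.singleton_append] at hB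
    obtain ⟨B', hB', hc'⟩ := h.1 A C g 0 B hB []
    refine ⟨B', hB', ?_⟩
    simp at hc'
    omega
  · rintro ⟨B, hB, hc⟩
    rw [List.append_nil] at hB
    exact ⟨(g, [0]) :: B, NC.ins g A [0] C B hB, by simpa [cost] using hc⟩

theorem add_eqv (h : S_NCOPS) (g : Fin 2) (x y : ℤ) (A C : List (Fin 2 × ℤ)) (c : ℕ) :
    P c (A ++ [(g, x), (g, y)] ++ C) ↔ P c (A ++ [(g, x + y)] ++ C) := by
  constructor
  · rintro ⟨B, hB, hc⟩
    have e1 : A ++ [(g, x), (g, y)] ++ C = A ++ (g, x) :: (g, y) :: C := by simp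
    rw [e1] at hB
    obtain ⟨B', hB', hc'⟩ := h.2.1 A C g x y B hB
    have e2 : A ++ [(g, x + y)] ++ C = A ++ (g, x + y) :: C := by simp
    exact ⟨B', by rw [e2]; exact hB', hc'.trans hc⟩
  · rintro ⟨B, hB, hc⟩
    rw [List.append_assoc, List.singleton_append] at hB
    obtain ⟨B', hB', hc'⟩ := h.1 A C g (x + y) B hB [x, y]
    refine ⟨B', hB', ?_⟩
    have e3 : ([x, y] : List ℤ).sum - (x + y) = 0 := by simp
    rw [e3] at hc'
    simp at hc'
    omega

/-- the powers of a generator -/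
def pw (h : S_NCOPS) (g : Fin 2) : Multiplicative ℤ →* con.Quotient where
  toFun x := (FreeMonoid.ofList [(g, Multiplicative.toAdd x)] : con.Quotient)
  map_one' := by
    have h1 := (con_iff [(g, 0)] []).2 (zero_eqv h g)
    exact h1
  map_mul' x y := by
    have h1 := (con_iff [(g, Multiplicative.toAdd x), (g, Multiplicative.toAdd y)]
      [(g, Multiplicative.toAdd x + Multiplicative.toAdd y)]).2 (add_eqv h g _ _)
    exact h1.symm

/-- the induced map on the free group -/
def FF (h : S_NCOPS) : FreeGroup (Fin 2) →* con.Quotientˣ :=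
  FreeGroup.lift fun g => (pw h g).toHomUnits (Multiplicative.ofAdd 1)

theorem FF_pow (h : S_NCOPS) (g : Fin 2) (x : ℤ) :
    ((FF h (FreeGroup.of g ^ x) : con.Quotientˣ) : con.Quotient) =
      (FreeMonoid.ofList [(g, x)] : con.Quotient) := by
  rw [map_zpow, FF, FreeGroup.lift_apply_of, ← map_zpow]
  have e1 : (Multiplicative.ofAdd (1 : ℤ)) ^ x = Multiplicative.ofAdd x := by
    rw [← ofAdd_zsmul]
    simp
  rw [e1]
  rfl

theorem FF_val (h : S_NCOPS) (L : List (Fin 2 × ℤ)) :
    ((FF h (val L) : con.Quotientˣ) : con.Quotient) = (FreeMonoid.ofList L : con.Quotient) := by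
  induction L with
  | nil => simp [val]
  | cons p L ih =>
    have e1 : val (p :: L) = FreeGroup.of p.1 ^ p.2 * val L := by simp [val]
    rw [e1, map_mul, Units.val_mul, ih, FF_pow]
    rfl

theorem invar (h : S_NCOPS) : S_INVAR := by
  intro L L' hL c hc
  have h1 := FF_val h L
  rw [hL, FF_val h L'] at h1
  have h2 := (con_iff L' L).1 h1 [] [] c
  simp only [List.nil_append, List.append_nil] at h2
  exact h2.2 hc

end Pool.Agent.Helper61.CK
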